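import Pool.Agent.R121.GenTree
import Pool.Agent.R121.StrongRot

set_option autoImplicit false

/-!
# Permutations strongly avoiding 321 and 1342

A permutation of length `n ≥ 3` strongly avoids `{321, 1342}` iff it fixes the last element and the
rest does, or it ends with the block `21` and the rest does, or it is a nontrivial rotation.
-/

namespace Pool.Agent.Results.MP_aa036a_co.Strong321

open Finset Pool.Agent.R121 Pool.Agent.R121.StrongRot

/-- `π` avoids `321`. -/
def Avoids321 {n : ℕ} (π : Equiv.Perm (Fin n)) : Prop :=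
  ¬ ∃ a b c : Fin n, a < b ∧ b < c ∧ π c < π b ∧ π b < π a

/-- `π` avoids `1342`. -/
def Avoids1342 {n : ℕ} (π : Equiv.Perm (Fin n)) : Prop :=
  ¬ ∃ a b c d : Fin n, a < b ∧ b < c ∧ c < d ∧ π a < π d ∧ π d < π b ∧ π b < π c

/-- `π` and `π²` avoid `321` and `1342`. -/
def StronglyAvoids {n : ℕ} (π : Equiv.Perm (Fin n)) : Prop :=
  (Avoids321 π ∧ Avoids1342 π) ∧ (Avoids321 (π * π) ∧ Avoids1342 (π * π))

/-- the function of a permutation -/
def fn {n : ℕ} (π : Equiv.Perm (Fin n)) (i : ℕ) : ℕ := if h : i < n then (π ⟨i, h⟩ : ℕ) else i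

lemma fn_fin {n : ℕ} (π : Equiv.Perm (Fin n)) (i : Fin n) : fn π i = π i := by
  simp [fn]

lemma fn_lt {n : ℕ} (π : Equiv.Perm (Fin n)) {i : ℕ} (h : i < n) : fn π i < n := by
  simp [fn, h]

lemma fn_mul {n : ℕ} (π σ : Equiv.Perm (Fin n)) (i : ℕ) : fn (π * σ) i = fn π (fn σ i) := by
  by_cases h : i < n
  · have h1 : fn σ i = σ ⟨i, h⟩ := fn_fin σ ⟨i, h⟩
    rw [h1, fn_fin π (σ ⟨i, h⟩)]
    exact fn_fin (π * σ) ⟨i, h⟩
  · simp [fn, h]

lemma fn_inj {n : ℕ} (π : Equiv.Perm (Fin n)) : ∀ i < n, ∀ j < n, fn π i = fn π j → i = j := by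
  intro i hi j hj h
  have h1 := fn_fin π ⟨i, hi⟩
  have h2 := fn_fin π ⟨j, hj⟩
  simp only at h1 h2
  rw [h1, h2] at h
  have := π.injective (Fin.ext h)
  simpa using this

lemma fn_surj {n : ℕ} (π : Equiv.Perm (Fin n)) : ∀ w < n, ∃ i < n, fn π i = w := by
  intro w hw
  refine ⟨π.symm ⟨w, hw⟩, Fin.is_lt _, ?_⟩
  rw [fn_fin]
  simp

/-- `321` is avoided -/
def Av3 (n : ℕ) (f : ℕ → ℕ) : Prop := ∀ a b c, a < b → b < c → c < n → ¬ (f c < f b ∧ f b < f a)

/-- `1342` is avoided -/
def Av4 (n : ℕ) (f : ℕ → ℕ) : Prop :=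
  ∀ a b c d, a < b → b < c → c < d → d < n → ¬ (f a < f d ∧ f d < f b ∧ f b < f c)

lemma av3_iff {n : ℕ} (π : Equiv.Perm (Fin n)) : Avoids321 π ↔ Av3 n (fn π) := by
  constructor
  · intro h a b c h1 h2 h3 h4
    apply h
    refine ⟨⟨a, by omega⟩, ⟨b, by omega⟩, ⟨c, h3⟩, h1, h2, ?_, ?_⟩
    · rw [Fin.lt_def, ← fn_fin, ← fn_fin]; exact h4.1
    · rw [Fin.lt_def, ← fn_fin, ← fn_fin]; exact h4.2
  · rintro h ⟨a, b, c, h1, h2, h3, h4⟩
    rw [Fin.lt_def, ← fn_fin, ← fn_fin] at h3 h4
    exact h a b c h1 h2 c.2 ⟨h3, h4⟩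

lemma av4_iff {n : ℕ} (π : Equiv.Perm (Fin n)) : Avoids1342 π ↔ Av4 n (fn π) := by
  constructor
  · intro h a b c d h1 h2 h3 h5 h4
    apply h
    refine ⟨⟨a, by omega⟩, ⟨b, by omega⟩, ⟨c, by omega⟩, ⟨d, h5⟩, h1, h2, h3, ?_, ?_, ?_⟩
    · rw [Fin.lt_def, ← fn_fin, ← fn_fin]; exact h4.1
    · rw [Fin.lt_def, ← fn_fin, ← fn_fin]; exact h4.2.1
    · rw [Fin.lt_def, ← fn_fin, ← fn_fin]; exact h4.2.2
  · rintro h ⟨a, b, c, d, h1, h2, h3, h4, h5, h6⟩
    rw [Fin.lt_def, ← fn_fin, ← fn_fin] at h4 h5 h6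
    exact h a b c d h1 h2 h3 d.2 ⟨h4, h5, h6⟩

/-- both are avoided -/
def Av (n : ℕ) (f : ℕ → ℕ) : Prop := Av3 n f ∧ Av4 n f

lemma good_iff {n : ℕ} (π : Equiv.Perm (Fin n)) :
    StronglyAvoids π ↔ Av n (fn π) ∧ Av n (fn (π * π)) := by
  unfold StronglyAvoids Av
  rw [av3_iff, av4_iff, av3_iff, av4_iff]

/-! ### adding a fixed point at the end -/

/-- `τ ⊕ 1` -/
noncomputable def ext1 {n : ℕ} (τ : Equiv.Perm (Fin n)) : Equiv.Perm (Fin (n + 1)) :=
  snocP (Fin.last n) τ

lemma fn_ext1 {n : ℕ} (τ : Equiv.Perm (Fin n)) (i : ℕ) : fn (ext1 τ) i = fn τ i := by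
  rcases Nat.lt_trichotomy i n with h | h | h
  · have h1 := fn_fin (ext1 τ) (⟨i, h⟩ : Fin n).castSucc
    have h2 := fn_fin τ ⟨i, h⟩
    unfold ext1 at h1 ⊢
    rw [snocP_castSucc, succAbove_val, if_pos (by simp)] at h1
    rw [← h2] at h1
    exact h1
  · subst h
    have h1 := fn_fin (ext1 τ) (Fin.last i)
    unfold ext1 at h1 ⊢
    rw [snocP_last] at h1
    simp only [Fin.val_last] at h1
    rw [h1]
    simp [fn]
  · simp [fn, show ¬ i < n + 1 by omega, show ¬ i < n by omega]

lemma fn_self {n : ℕ} (π : Equiv.Perm (Fin n)) : fn π n = n := by simp [fn]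

lemma av_ext1 {n : ℕ} (τ : Equiv.Perm (Fin n)) : Av (n + 1) (fn τ) ↔ Av n (fn τ) := by
  constructor
  · rintro ⟨h1, h2⟩
    exact ⟨fun a b c x1 x2 x3 => h1 a b c x1 x2 (by omega),
      fun a b c d x1 x2 x3 x4 => h2 a b c d x1 x2 x3 (by omega)⟩
  · rintro ⟨h1, h2⟩
    constructor
    · intro a b c x1 x2 x3 x4
      rcases Nat.lt_or_ge c n with h | h
      · exact h1 a b c x1 x2 h x4
      · have : c = n := by omega
        rw [this, fn_self] at x4
        have := fn_lt τ (show b < n by omega)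
        omega
    · intro a b c d x1 x2 x3 x5 x4
      rcases Nat.lt_or_ge d n with h | h
      · exact h2 a b c d x1 x2 x3 h x4
      · have : d = n := by omega
        rw [this, fn_self] at x4
        have := fn_lt τ (show b < n by omega)
        omega

lemma good_ext1 {n : ℕ} (τ : Equiv.Perm (Fin n)) :
    StronglyAvoids (ext1 τ) ↔ StronglyAvoids τ := by
  have e : ∀ i, fn (ext1 τ * ext1 τ) i = fn (τ * τ) i := by
    intro i
    rw [fn_mul, fn_mul, fn_ext1, fn_ext1]
  rw [good_iff, good_iff, funext e, funext (fn_ext1 τ), av_ext1, av_ext1]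

/-! ### adding a block `21` at the end -/

/-- `σ ⊕ 21` -/
noncomputable def ext2 {n : ℕ} (σ : Equiv.Perm (Fin n)) : Equiv.Perm (Fin (n + 2)) :=
  snocP ⟨n, by omega⟩ (ext1 σ)

lemma fn_ext2_lt {n : ℕ} (σ : Equiv.Perm (Fin n)) {i : ℕ} (h : i < n) :
    fn (ext2 σ) i = fn σ i := by
  have h1 := fn_fin (ext2 σ) (⟨i, by omega⟩ : Fin (n + 1)).castSucc
  have h2 := fn_fin (ext1 σ) (⟨i, by omega⟩ : Fin (n + 1))
  unfold ext2 at h1 ⊢
  rw [snocP_castSucc, succAbove_val] at h1
  simp only at h1 h2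
  rw [← h2, fn_ext1] at h1
  rw [if_pos (fn_lt σ h)] at h1
  exact h1

lemma fn_ext2_n {n : ℕ} (σ : Equiv.Perm (Fin n)) : fn (ext2 σ) n = n + 1 := by
  have h1 := fn_fin (ext2 σ) (⟨n, by omega⟩ : Fin (n + 1)).castSucc
  have h2 := fn_fin (ext1 σ) (⟨n, by omega⟩ : Fin (n + 1))
  unfold ext2 at h1 ⊢
  rw [snocP_castSucc, succAbove_val] at h1
  simp only at h1 h2
  rw [← h2, fn_ext1, fn_self, if_neg (by omega)] at h1
  exact h1

lemma fn_ext2_n1 {n : ℕ} (σ : Equiv.Perm (Fin n)) : fn (ext2 σ) (n + 1) = n := by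
  have h1 := fn_fin (ext2 σ) (Fin.last (n + 1))
  unfold ext2 at h1 ⊢
  rw [snocP_last] at h1
  exact h1

lemma av_ext2 {n : ℕ} (σ : Equiv.Perm (Fin n)) : Av (n + 2) (fn (ext2 σ)) ↔ Av n (fn σ) := by
  constructor
  · rintro ⟨h1, h2⟩
    constructor
    · intro a b c x1 x2 x3 x4
      apply h1 a b c x1 x2 (by omega)
      rw [fn_ext2_lt σ (show a < n by omega), fn_ext2_lt σ (show b < n by omega), fn_ext2_lt σ x3]
      exact x4
    · intro a b c d x1 x2 x3 x5 x4
      apply h2 a b c d x1 x2 x3 (by omega)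
      rw [fn_ext2_lt σ (show a < n by omega), fn_ext2_lt σ (show b < n by omega),
        fn_ext2_lt σ (show c < n by omega), fn_ext2_lt σ x5]
      exact x4
  · rintro ⟨h1, h2⟩
    have key : ∀ i, i < n → fn (ext2 σ) i < n := by
      intro i hi
      rw [fn_ext2_lt σ hi]
      exact fn_lt σ hi
    have k1 := fn_ext2_n σ
    have k2 := fn_ext2_n1 σ
    constructor
    · intro a b c x1 x2 x3 x4
      rcases Nat.lt_or_ge c n with h | h
      · rw [fn_ext2_lt σ (show a < n by omega), fn_ext2_lt σ (show b < n by omega),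
          fn_ext2_lt σ h] at x4
        exact h1 a b c x1 x2 h x4
      · have k3 := key a (by omega)
        rcases Nat.lt_or_ge c (n + 1) with h' | h'
        · have : c = n := by omega
          rw [this, k1] at x4
          have k4 := key b (by omega)
          omega
        · have : c = n + 1 := by omega
          rw [this, k2] at x4
          omega
    · intro a b c d x1 x2 x3 x5 x4
      rcases Nat.lt_or_ge d n with h | h
      · rw [fn_ext2_lt σ (show a < n by omega), fn_ext2_lt σ (show b < n by omega),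
          fn_ext2_lt σ (show c < n by omega), fn_ext2_lt σ h] at x4
        exact h2 a b c d x1 x2 x3 h x4
      · have k3 := key b (by omega)
        rcases Nat.lt_or_ge d (n + 1) with h' | h'
        · have : d = n := by omega
          rw [this, k1] at x4
          omega
        · have : d = n + 1 := by omega
          rw [this, k2] at x4
          omega

lemma good_ext2 {n : ℕ} (σ : Equiv.Perm (Fin n)) :
    StronglyAvoids (ext2 σ) ↔ StronglyAvoids σ := by
  have e : ∀ i, fn (ext2 σ * ext2 σ) i = fn (ext1 (ext1 (σ * σ))) i := by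
    intro i
    rw [fn_mul, fn_ext1, fn_ext1, fn_mul]
    rcases Nat.lt_or_ge i n with h | h
    · rw [fn_ext2_lt σ h, fn_ext2_lt σ (fn_lt σ h)]
    · have h2 : fn σ (fn σ i) = i := by simp [fn, show ¬ i < n by omega]
      rw [h2]
      rcases Nat.lt_or_ge i (n + 1) with h' | h'
      · have : i = n := by omega
        rw [this, fn_ext2_n, fn_ext2_n1]
      · rcases Nat.lt_or_ge i (n + 2) with h'' | h''
        · have : i = n + 1 := by omega
          rw [this, fn_ext2_n1, fn_ext2_n]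
        · simp [fn, show ¬ i < n + 2 by omega]
  rw [good_iff, good_iff, funext e, av_ext2, funext (fn_ext1 (ext1 (σ * σ))), av_ext1,
    funext (fn_ext1 (σ * σ)), av_ext1]

/-! ### rotations -/

/-- the rotation by `c` -/
def rot {n : ℕ} (c : Fin (n + 1)) : Equiv.Perm (Fin (n + 1)) := Equiv.addRight c

lemma fn_rot {n : ℕ} (c : Fin (n + 1)) {i : ℕ} (h : i < n + 1) :
    fn (rot c) i = if i < n + 1 - c then i + c else i - (n + 1 - c) := by
  have h1 := fn_fin (rot c) ⟨i, h⟩
  simp only [rot, Equiv.coe_addRight] at h1 ⊢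
  rw [h1, Fin.val_add_eq_ite]
  simp only
  have := c.2
  split_ifs <;> omega

lemma av_rot {n : ℕ} (c : Fin (n + 1)) : Av (n + 1) (fn (rot c)) := by
  have hc := c.2
  constructor
  · intro x y z h1 h2 h3 h4
    rw [fn_rot c (show x < n + 1 by omega), fn_rot c (show y < n + 1 by omega), fn_rot c h3] at h4
    split_ifs at h4 <;> omega
  · intro x y z w h1 h2 h3 h5 h4
    rw [fn_rot c (show x < n + 1 by omega), fn_rot c (show y < n + 1 by omega),
      fn_rot c (show z < n + 1 by omega), fn_rot c h5] at h4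
    split_ifs at h4 <;> omega

lemma good_rot {n : ℕ} (c : Fin (n + 1)) : StronglyAvoids (rot c) := by
  rw [good_iff]
  refine ⟨av_rot c, ?_⟩
  have : rot c * rot c = rot (c + c) := by
    apply Equiv.ext
    intro i
    simp only [rot, Equiv.Perm.coe_mul, Function.comp_apply, Equiv.coe_addRight]
    rw [add_assoc]
  rw [this]
  exact av_rot _

/-! ### counting -/

open Classical in
/-- the good permutations -/
noncomputable def gd (n : ℕ) : Finset (Equiv.Perm (Fin n)) :=
  univ.filter fun π => StronglyAvoids π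

lemma mem_gd {n : ℕ} {π : Equiv.Perm (Fin n)} : π ∈ gd n ↔ StronglyAvoids π := by
  simp [gd]

lemma ext_of_fn {n : ℕ} {π σ : Equiv.Perm (Fin n)} (h : ∀ i < n, fn π i = fn σ i) : π = σ := by
  apply Equiv.ext
  intro i
  apply Fin.ext
  rw [← fn_fin, ← fn_fin]
  exact h i i.2

lemma exists_snoc {n : ℕ} (π : Equiv.Perm (Fin (n + 1))) : ∃ v τ, snocP v τ = π := by
  obtain ⟨⟨v, τ⟩, h⟩ := (snocP_bijective n).2 π
  exact ⟨v, τ, h⟩

lemma gd_eq (n : ℕ) : gd (n + 2) = (gd (n + 1)).image ext1 ∪ (gd n).image ext2 ∪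
    ((univ : Finset (Fin (n + 2))).filter fun c => c ≠ 0).image rot := by
  ext π
  simp only [mem_union, mem_image, mem_gd, mem_filter, mem_univ, true_and]
  constructor
  · intro hπ
    rw [good_iff] at hπ
    obtain ⟨⟨h1, h2⟩, ⟨h3, h4⟩⟩ := hπ
    have h3' : ∀ a b c, a < b → b < c → c < n + 2 →
        ¬ (fn π (fn π c) < fn π (fn π b) ∧ fn π (fn π b) < fn π (fn π a)) := by
      intro a b c x1 x2 x3
      have := h3 a b c x1 x2 x3
      rw [fn_mul, fn_mul, fn_mul] at this
      exact this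
    have h4' : ∀ a b c d, a < b → b < c → c < d → d < n + 2 →
        ¬ (fn π (fn π a) < fn π (fn π d) ∧ fn π (fn π d) < fn π (fn π b) ∧
          fn π (fn π b) < fn π (fn π c)) := by
      intro a b c d x1 x2 x3 x4
      have := h4 a b c d x1 x2 x3 x4
      rw [fn_mul, fn_mul, fn_mul, fn_mul] at this
      exact this
    have hgood : StronglyAvoids π := by
      rw [good_iff]; exact ⟨⟨h1, h2⟩, ⟨h3, h4⟩⟩
    rcases main (n + 2) (by omega) (fn π) (fun i hi => fn_lt π hi) (fn_inj π) (fn_surj π) h1 h2 h3' h4'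
      with h | h | h
    · left; left
      obtain ⟨v, τ, rfl⟩ := exists_snoc π
      have hv : v = Fin.last (n + 1) := by
        apply Fin.ext
        have := fn_fin (snocP v τ) (Fin.last (n + 1))
        rw [snocP_last] at this
        rw [← this]
        exact h
      subst hv
      exact ⟨τ, (good_ext1 τ).1 hgood, rfl⟩
    · left; right
      obtain ⟨v, τ, rfl⟩ := exists_snoc π
      have hv : v = (Fin.last n).castSucc := by
        apply Fin.ext
        have := fn_fin (snocP v τ) (Fin.last (n + 1))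
        rw [snocP_last] at this
        rw [← this]
        exact h.1
      subst hv
      obtain ⟨v', σ, rfl⟩ := exists_snoc τ
      have hv' : v' = Fin.last n := by
        apply Fin.ext
        have h5 := fn_fin (snocP ((Fin.last n).castSucc : Fin (n + 2)) (snocP v' σ))
          (Fin.last n).castSucc
        rw [snocP_castSucc, snocP_last, succAbove_val] at h5
        have h6 := h.2
        simp only [Fin.val_castSucc, Fin.val_last] at h5 ⊢
        have h7 : fn (snocP ((Fin.last n).castSucc : Fin (n + 2)) (snocP v' σ)) n = n + 1 := h6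
        rw [h7] at h5
        have := v'.2
        split_ifs at h5 <;> omega
      subst hv'
      exact ⟨σ, (good_ext2 σ).1 hgood, rfl⟩
    · right
      obtain ⟨c, hc1, hc2, hc⟩ := h
      refine ⟨⟨c, hc2⟩, ?_, ?_⟩
      · intro h5
        have := congrArg Fin.val h5
        simp at this
        omega
      · apply ext_of_fn
        intro i hi
        rw [fn_rot _ hi, hc i hi]
  · rintro ((⟨τ, h1, rfl⟩ | ⟨σ, h1, rfl⟩) | ⟨c, h1, rfl⟩)
    · exact (good_ext1 τ).2 h1
    · exact (good_ext2 σ).2 h1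
    · exact good_rot c

lemma ext1_inj (n : ℕ) : Function.Injective (ext1 (n := n)) := by
  intro τ τ' h
  have := (snocP_bijective n).1 (a₁ := (Fin.last n, τ)) (a₂ := (Fin.last n, τ')) h
  simpa using this

lemma ext2_inj (n : ℕ) : Function.Injective (ext2 (n := n)) := by
  intro τ τ' h
  have := (snocP_bijective (n + 1)).1 (a₁ := (⟨n, by omega⟩, ext1 τ)) (a₂ := (⟨n, by omega⟩, ext1 τ')) h
  apply ext1_inj
  simpa using this

lemma card_gd (n : ℕ) (hn : 1 ≤ n) :
    (gd (n + 2)).card = (gd (n + 1)).card + (gd n).card + (n + 1) := by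
  have k1 : ∀ τ : Equiv.Perm (Fin (n + 1)), fn (ext1 τ) (n + 1) = n + 1 := by
    intro τ
    rw [fn_ext1, fn_self]
  rw [gd_eq, card_union_of_disjoint, card_union_of_disjoint, card_image_of_injective _ (ext1_inj _),
    card_image_of_injective _ (ext2_inj _), card_image_of_injective]
  · congr 1
    rw [filter_ne', card_erase_of_mem (mem_univ _), card_univ, Fintype.card_fin]
    rfl
  · intro c c' h
    have : rot c 0 = rot c' 0 := by rw [h]
    simpa [rot] using this
  · rw [disjoint_left]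
    intro π h1 h2
    simp only [mem_image] at h1 h2
    obtain ⟨τ, _, h3⟩ := h1
    obtain ⟨σ, _, h4⟩ := h2
    have h5 := k1 τ
    have h6 := fn_ext2_n1 σ
    rw [h3] at h5
    rw [h4] at h6
    omega
  · rw [disjoint_left]
    intro π h1 h2
    simp only [mem_union, mem_image, mem_filter, mem_univ, true_and] at h1 h2
    obtain ⟨c, hc, h2⟩ := h2
    have hc0 : (c : ℕ) ≠ 0 := fun h => hc (Fin.ext h)
    have hc2 := c.2
    have h5 := fn_rot c (i := n + 1) (by omega)
    have h6 := fn_rot c (i := n) (by omega)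
    rw [h2] at h5 h6
    rcases h1 with ⟨τ, _, h3⟩ | ⟨σ, _, h3⟩
    · have h7 := k1 τ
      rw [h3] at h7
      rw [h7] at h5
      split_ifs at h5 <;> omega
    · have h7 := fn_ext2_n1 σ
      have h8 := fn_ext2_n σ
      rw [h3] at h7 h8
      rw [h7] at h5
      rw [h8] at h6
      split_ifs at h5 h6 <;> omega

lemma good_of_small {n : ℕ} (hn : n ≤ 2) (π : Equiv.Perm (Fin n)) : StronglyAvoids π := by
  rw [good_iff]
  refine ⟨⟨?_, ?_⟩, ⟨?_, ?_⟩⟩
  · intro a b c h1 h2 h3; omega
  · intro a b c d h1 h2 h3 h4; omega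
  · intro a b c h1 h2 h3; omega
  · intro a b c d h1 h2 h3 h4; omega

lemma card_small {n : ℕ} (hn : n ≤ 2) : (gd n).card = n.factorial := by
  have : gd n = univ := by
    ext π
    simp only [mem_gd, mem_univ, iff_true]
    exact good_of_small hn π
  rw [this, card_univ, Fintype.card_perm, Fintype.card_fin]

lemma count (n : ℕ) : (gd (n + 1)).card + (n + 1) + 2 = 2 * Nat.fib (n + 3) ∧
    (gd (n + 2)).card + (n + 2) + 2 = 2 * Nat.fib (n + 4) := by
  induction n with
  | zero =>
    rw [card_small (by norm_num), card_small (by norm_num)]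
    decide
  | succ n ih =>
    refine ⟨ih.2, ?_⟩
    have h1 := card_gd (n + 1) (by omega)
    have h2 : Nat.fib (n + 1 + 4) = Nat.fib (n + 3) + Nat.fib (n + 4) := Nat.fib_add_two
    rw [h2]
    have e1 : n + 1 + 2 = n + 3 := rfl
    have e2 : n + 1 + 1 = n + 2 := rfl
    rw [e1, e2] at h1
    rw [e1]
    omega

/-- For every positive integer `n` the number of the permutations of length `n` which strongly avoid
`321` and `1342` is `2 F_{n+2} - n - 2`. -/
theorem result (n : ℕ) (hn : 1 ≤ n) :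
    (Nat.card {π : Equiv.Perm (Fin n) // StronglyAvoids π} : ℤ) = 2 * Nat.fib (n + 2) - n - 2 := by
  obtain ⟨m, rfl⟩ : ∃ m, n = m + 1 := ⟨n - 1, by omega⟩
  have h1 : Nat.card {π : Equiv.Perm (Fin (m + 1)) // StronglyAvoids π} = (gd (m + 1)).card := by
    classical
    rw [Nat.card_eq_fintype_card, Fintype.card_subtype, gd]
  rw [h1]
  have h2 := (count m).1
  have h3 : m + 1 + 2 = m + 3 := rfl
  rw [h3]
  have h4 : ((gd (m + 1)).card : ℤ) + ((m : ℤ) + 1) + 2 = 2 * (Nat.fib (m + 3) : ℤ) := by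
    exact_mod_cast h2
  push_cast
  linarith

end Pool.Agent.Results.MP_aa036a_co.Strong321
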